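import Pool.Agent.PSS.StmtsS3

/-!
# Squad PSS, block S3, row GFC (helper22): the generic fibre is in the class
-/

set_option autoImplicit false

open scoped BigOperators TensorProduct PowerSeries

namespace Pool.Agent.PSS.H22

open Pool.Agent.PSS Pool.Agent.PSS.S3

theorem gfc (hblk : BlkStmt) (hgfb : GfbStmt) : GfcStmt := by
  classical
  intro ℓ _ F F' V E A As K K0 _ _ _ _ _ _ _ _ _ _ _ _ _ _ _ φ α W _ ψ γ q lam lam0 x y x0 y0
    hinj hV hE hW hd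
  obtain ⟨⟨lamS, hlamS, hrf⟩, hper, huni, -⟩ :=
    hgfb F⟦X⟧ F' W E As K ψ γ lam x y hd.rf hd.per hd.uni
  refine ⟨?_, hper, huni, ⟨lamS, K, inferInstance, _, _, hrf, ?_⟩, ?_⟩
  · obtain ⟨Ω, _, _, b, c, hfr, -⟩ := hper
    refine ⟨Submodule.fg_def.2 ⟨Set.range b, Set.finite_range b, ?_⟩⟩
    rw [eq_top_iff]
    rintro m -
    rw [← hfr.2.2 m]
    exact Submodule.sum_mem _ fun t _ => Submodule.smul_mem _ _ (Submodule.subset_span ⟨t, rfl⟩)
  · obtain ⟨u, u', huu, hu'u, hsum⟩ := hd.unt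
    have hX : algebraMap F⟦X⟧ F' PowerSeries.X ≠ 0 := by
      intro h
      have h1 : algebraMap F⟦X⟧ F' PowerSeries.X = algebraMap F⟦X⟧ F' 0 := by rw [h, map_zero]
      exact PowerSeries.X_ne_zero (hinj h1)
    refine ⟨(algebraMap F⟦X⟧ F' PowerSeries.X)⁻¹ ⊗ₜ[F⟦X⟧] u', ?_⟩
    have e1 : ∑ k, (1 : F') ⊗ₜ[F⟦X⟧] x k * (1 : F') ⊗ₜ[F⟦X⟧] y k =
        (1 : F') ⊗ₜ[F⟦X⟧] ∑ k, x k * y k := by
      rw [TensorProduct.tmul_sum]
      refine Finset.sum_congr rfl fun k _ => ?_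
      rw [Algebra.TensorProduct.tmul_mul_tmul, one_mul]
    rw [e1, hsum, TensorProduct.tmul_smul, TensorProduct.smul_tmul',
      Algebra.TensorProduct.tmul_mul_tmul, Algebra.smul_def, mul_one, inv_mul_cancel₀ hX, hu'u]
    rfl
  · intro Q e he h1 h2 h3
    exact hblk ℓ F F' V E A As K K0 φ α W ψ γ q lam lam0 x y x0 y0 hinj hV hE hW hd Q e he h1 h2 h3

end Pool.Agent.PSS.H22
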