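import Pool.Agent.PSS.StmtsS2

/-!
# Squad PSS, block S2, row NLM (helper22)
-/

set_option autoImplicit false

open scoped BigOperators

namespace Pool.Agent.PSS.S2.H22

open Pool.Agent.PSS Pool.Agent.PSS.S2

theorem nlm : NlmStmt := by
  classical
  intro F V A K _ _ _ _ _ _ α lam x y a hrf ha
  have hshift : ∀ (u : V) (b : A), ∑ v, lam (α v⁻¹ * b * α u) = ∑ v, lam (α v⁻¹ * b) := by
    intro u b
    rw [← Equiv.sum_comp (Equiv.mulRight u) (fun v => lam (α v⁻¹ * b * α u))]
    refine Finset.sum_congr rfl fun v _ => ?_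
    show lam (α (v * u)⁻¹ * b * α u) = _
    rw [hrf.sym, ← mul_assoc, ← map_mul, mul_inv_rev, mul_inv_cancel_left]
  let m : A → Matrix K K F := fun a => Matrix.of fun j k => ∑ v, lam (α v⁻¹ * (y j * a * x k))
  have hm : ∀ a j k, m a j k = ∑ v, lam (α v⁻¹ * (y j * a * x k)) := fun a j k => rfl
  have hmul : ∀ a b, m (a * b) = m a * m b := by
    intro a b
    ext j l
    rw [Matrix.mul_apply, hm]
    have h1 := hrf.e1 (b * x l)
    have h2 : ∀ v : V, lam (α v⁻¹ * (y j * (a * b) * x l)) =
        ∑ k, ∑ u, lam (α u⁻¹ * y k * (b * x l)) * lam (α v⁻¹ * (y j * a * x k) * α u) := by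
      intro v
      have e : α v⁻¹ * (y j * (a * b) * x l) = α v⁻¹ * (y j * a) * (b * x l) := by
        simp only [mul_assoc]
      rw [e]
      conv_lhs => rw [← h1]
      rw [Finset.mul_sum, map_sum]
      refine Finset.sum_congr rfl fun k _ => ?_
      rw [Finset.mul_sum, map_sum]
      refine Finset.sum_congr rfl fun u _ => ?_
      rw [mul_smul_comm, map_smul, smul_eq_mul]
      simp only [mul_assoc]
    rw [Finset.sum_congr rfl fun v _ => h2 v, Finset.sum_comm]
    refine Finset.sum_congr rfl fun k _ => ?_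
    rw [Finset.sum_comm, hm, hm, Finset.mul_sum]
    refine Finset.sum_congr rfl fun u _ => ?_
    rw [← Finset.mul_sum, hshift, mul_comm]
    simp only [mul_assoc]
  have hpow : ∀ n : ℕ, m (a ^ (n + 1)) = m a ^ (n + 1) := by
    intro n
    induction n with
    | zero => rw [zero_add, pow_one, pow_one]
    | succ n ih => rw [pow_succ, hmul, ih, ← pow_succ]
  obtain ⟨n, hn⟩ := ha
  have hnil : IsNilpotent (m a) := by
    refine ⟨n + 1, ?_⟩
    rw [← hpow, pow_succ, hn, zero_mul]
    ext j k
    rw [hm]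
    simp
  have htr := (Matrix.isNilpotent_trace_of_isNilpotent hnil).eq_zero
  rw [← htr, Matrix.trace]
  refine Finset.sum_congr rfl fun k _ => ?_
  rw [Matrix.diag_apply, hm, sg, Finset.mul_sum, Finset.mul_sum, map_sum]
  rw [← Equiv.sum_comp (Equiv.inv V)]
  refine Finset.sum_congr rfl fun v _ => ?_
  show lam (y k * (a * x k * α v⁻¹)) = _
  rw [hrf.sym (α v⁻¹)]
  simp only [mul_assoc]

end Pool.Agent.PSS.S2.H22
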