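import Pool.Agent.PSS.StmtsS1a
import Pool.Agent.Helper49_PFD.UNG

/-!
# Squad PSS, block S1, part a, row RGV (helper22): the ring
-/

set_option autoImplicit false

namespace Pool.Agent.PSS.H22

open Pool.Agent.PSS
open Pool.Agent.PFD.D2 (Cdv FibG)

theorem rgv : RgvStmt := by
  intro R F V A M _ _ c _ _ _ _ _ _ _ α ρ q hq β hβ hm hasr
  obtain ⟨hl, hmid, hr⟩ := hβ
  have hassoc : ∀ x y z, β (β x y) z = β x (β y z) := fun x y z => sub_eq_zero.1 (hasr x y z)
  obtain ⟨e, he⟩ := hq.sj 1
  have hb1 : Function.Bijective (β e) := by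
    refine Pool.Agent.PFD.D2.H49.ung R F M c (β e) (fun x => (hq.kr _).1 ?_)
    rw [map_sub, hm, he, one_mul, sub_self]
  have hb2 : Function.Bijective (β.flip e) := by
    refine Pool.Agent.PFD.D2.H49.ung R F M c (β.flip e) (fun x => (hq.kr _).1 ?_)
    rw [map_sub, LinearMap.flip_apply, hm, he, mul_one, sub_self]
  obtain ⟨e1, he1⟩ := hb1.2 e
  obtain ⟨e2, he2⟩ := hb2.2 e
  have hone : ∀ x, β e1 x = x := by
    intro x
    apply hb1.1
    rw [← hassoc, he1]
  have hone2 : ∀ x, β x e2 = x := by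
    intro x
    apply hb2.1
    rw [LinearMap.flip_apply, LinearMap.flip_apply, hassoc]
    rw [LinearMap.flip_apply] at he2
    rw [he2]
  have h12 : e1 = e2 := by rw [← hone2 e1, hone e2]
  have hone' : ∀ x, β x e1 = x := by
    intro x
    rw [h12]
    exact hone2 x
  have hqe : q e1 = 1 := by
    have h := hm e1 e
    rw [hone e, he, mul_one] at h
    exact h.symm
  let S : Subalgebra R (Module.End R M) :=
    { carrier := Set.range β
      mul_mem' := by
        rintro _ _ ⟨x, rfl⟩ ⟨y, rfl⟩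
        refine ⟨β x y, ?_⟩
        ext z
        exact hassoc x y z
      add_mem' := by
        rintro _ _ ⟨x, rfl⟩ ⟨y, rfl⟩
        exact ⟨x + y, map_add β x y⟩
      algebraMap_mem' := by
        intro r
        refine ⟨r • e1, ?_⟩
        ext z
        rw [map_smul, LinearMap.smul_apply, hone z]
        rfl }
  have hS : ∀ x, β x ∈ S := fun x => ⟨x, rfl⟩
  let φ₀ : M →ₗ[R] S :=
    { toFun := fun x => ⟨β x, hS x⟩
      map_add' := fun x y => Subtype.ext (map_add β x y)
      map_smul' := fun r x => Subtype.ext (map_smul β r x) }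
  have hφ₀ : Function.Bijective φ₀ := by
    constructor
    · intro x y hxy
      have h : β x = β y := congrArg Subtype.val hxy
      rw [← hone' x, ← hone' y, h]
    · rintro ⟨_, ⟨x, rfl⟩⟩
      exact ⟨x, rfl⟩
  let φ : M ≃ₗ[R] S := LinearEquiv.ofBijective φ₀ hφ₀
  have hφv : ∀ x, (φ x : Module.End R M) = β x := fun x => rfl
  have hφm : ∀ x y, φ (β x y) = φ x * φ y := by
    intro x y
    apply Subtype.ext
    ext z
    exact hassoc x y z
  have hφ1 : φ e1 = 1 := by
    apply Subtype.ext
    ext z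
    exact hone z
  have hlu : ∀ u x, φ (ρ (u, 1) x) = φ (ρ (u, 1) e1) * φ x := by
    intro u x
    rw [← hφm, hl, hone]
  have hru : ∀ v x, ρ (1, v) x = β x (ρ (v⁻¹, 1) e1) := by
    intro v x
    have h := hmid v e1 e1
    rw [hone', hone] at h
    rw [← h, hr, hone']
  let α' : V →* S :=
    { toFun := fun v => φ (ρ (v, 1) e1)
      map_one' := by
        have h : ((1, 1) : V × V) = 1 := rfl
        rw [h, map_one]
        exact hφ1
      map_mul' := by
        intro u v
        rw [← hlu]
        have h : ((u * v, 1) : V × V) = (u, 1) * (v, 1) := by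
          rw [Prod.mk_mul_mk, mul_one]
        rw [h, map_mul]
        rfl }
  have hα' : ∀ v, α' v = φ (ρ (v, 1) e1) := fun v => rfl
  refine ⟨S, inferInstance, inferInstance, φ, α', hφm, ?_, ?_, ?_⟩
  · intro u v x
    have h : ((u, v) : V × V) = (u, 1) * (1, v) := by
      rw [Prod.mk_mul_mk, mul_one, one_mul]
    rw [h, map_mul, hα', hα', ← hlu, ← hφm, hl, ← hru]
    rfl
  · intro v
    rw [hα', LinearEquiv.symm_apply_apply, hq.eq, hqe]
    show α (v, (1 : V)).1 * (1 * α (v, (1 : V)).2⁻¹) = α v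
    rw [inv_one, map_one, mul_one, mul_one]
  · rw [← hφ1, LinearEquiv.symm_apply_apply, hqe]

end Pool.Agent.PSS.H22
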